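import Mathlib
import Pool.Agent.Helper47.P.Defs
import Pool.Agent.Helper60.M.Nice

/-!
# Theorem M+, block PT: `nice0`, `nice1` for the types `Tc`
-/

set_option autoImplicit false

namespace Pool.Agent.Helper60.P

open MvPolynomial Pool.Agent.Helper47.M Pool.Agent.Helper47.P Pool.Agent.Helper60.M

variable {k l : ℕ} {N : Fin k → ℕ} {d : Fin l → Fin k → ℕ}

theorem tc_pos (h : Tc N d) (r : Fin k) : 0 < l := by
  rcases Nat.eq_zero_or_pos l with h0 | h0
  · subst h0
    have h1 := h.dbl r
    have h2 := h.cur r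
    simp only [Finset.univ_eq_empty, Finset.sum_empty] at h1 h2
    rcases h.dim r with h3 | h3
    · exact absurd (h1 h3) (by omega)
    · exact absurd (h2 h3) (by omega)
  · exact h0

theorem nice0 (h : Tc N d) (r : Fin k) (hr : N r = l + 1) :
    ∃ Δ : MvPolynomial (Tx N d) ℚ, Δ ≠ 0 ∧ ∀ (K : Type) [Field K] [CharZero K] (c : Tx N d → K),
      aeval c Δ ≠ 0 → ∀ (Ω : Type) [Field Ω] [Algebra K Ω] (x : Pt N Ω), GenPt K c r x →
        ¬ (x r 0 = 0 ∧ x r 1 = 0) := by
  classical
  have hl := tc_pos h r
  -- the chart `x r e = 1`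
  have step : ∀ e : {e : Fin (N r + 1) // e ≠ 0 ∧ e ≠ 1},
      ∃ Δ : MvPolynomial (Tx N d) ℚ, Δ ≠ 0 ∧ ∀ (K : Type) [Field K] [CharZero K]
        (c : Tx N d → K), aeval c Δ ≠ 0 → ∀ (Ω : Type) [Field Ω] [Algebra K Ω] (x : Pt N Ω),
          GenPt K c r x → x r 0 = 0 → x r 1 = 0 → x r e.1 ≠ 1 := by
    rintro ⟨e, he0, he1⟩
    let p : Fin (N r + 1) → Prop := fun i => i ≠ 0 ∧ i ≠ 1 ∧ i ≠ e
    let z : Fin (N r + 1) → ℕ := fun i => if i = e then 1 else 0
    have hpe : ¬ p e := fun hh => hh.2.2 rfl
    obtain ⟨Δ, hΔ, hall⟩ := engine (d := d) r (ν := {i // p i}) (U := Fin l)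
      (fun S _ w v u => row (Pi.single u 1) (fun _ => fc (gp r w (ins p z v))))
      (by
        intro S S' _ _ f w v u m
        have h1 := gp_map f w (ins p z v)
        simp only [ins_map] at h1
        unfold row fc
        rw [map_mul, map_prod]
        have h3 : ∀ j i, f (gp r w (ins p z v) j i) =
            gp r (fun q => f (w q)) (fun i => ins p z (fun i => f (v i)) i) j i :=
          fun j i => congrFun (congrFun h1 j) i
        simp only [map_prod, h3]
        congr 1
        by_cases hu : m.1 = u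
        · rw [hu, Pi.single_eq_same, Pi.single_eq_same, map_one]
        · rw [Pi.single_eq_of_ne hu, Pi.single_eq_of_ne hu, map_zero])
      (by
        intro Ω _ L w v hw hv u m
        refine row_mem L _ (fun i => ?_) _ (fun i m => fc_mem L _
          (gp_mem L w _ hw (ins_mem p z L v hv)) m) m
        by_cases hu : i = u
        · rw [hu, Pi.single_eq_same]
          exact one_mem L
        · rw [Pi.single_eq_of_ne hu]
          exact zero_mem L)
      (by
        intro Ω _ w v t
        have hy : ins p z v ≠ 0 := fun h0 => by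
          have := congrFun h0 e
          rw [ins_neg p z v e hpe] at this
          simp [z] at this
        have hx := gp_ne_zero w (ins p z v) hy
        choose a ha _ using fun i : Fin l => Pool.Agent.Helper94.M.exists_tensor (e := d i) (fun j => h.pos i j)
          (gp r w (ins p z v)) hx r e (by
            rw [gp_self, ins_neg p z v e hpe]
            simp [z]) (t i) 0
        refine ⟨fun m => a m.1 m.2, fun u => ?_⟩
        rw [row_Fm]
        exact ha u)
      (by
        have h1 : Fintype.card {i : Fin (N r + 1) // p i} + 3 = N r + 1 := by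
          have h2 : Fintype.card {i : Fin (N r + 1) // p i} =
              (Finset.univ \ {0, 1, e} : Finset (Fin (N r + 1))).card := by
            rw [Fintype.card_subtype]
            congr 1
            ext i
            simp [p]
          rw [h2, Finset.card_sdiff_of_subset (Finset.subset_univ _), Finset.card_univ,
            Fintype.card_fin]
          have h3 : ({0, 1, e} : Finset (Fin (N r + 1))).card = 3 := by
            rw [Finset.card_eq_three]
            refine ⟨0, 1, e, ?_, Ne.symm he0, Ne.symm he1, rfl⟩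
            intro h01
            have h4 := congrArg Fin.val h01
            simp only [Fin.coe_ofNat_eq_mod, Nat.zero_mod] at h4
            rw [Nat.mod_eq_of_lt (by omega)] at h4
            omega
          rw [h3]
          omega
        rw [Fintype.card_fin]
        omega)
    refine ⟨Δ, hΔ, fun K _ _ c hc Ω _ _ x hx hx0 hx1 hxe => ?_⟩
    refine hall K c hc Ω _ (fun i => x r i) hx.ind fun u => ?_
    rw [row_Fm (fun m => algebraMap K Ω (c m))]
    have h1 : ins p z (fun i => x r i) = x r := by
      refine ins_eq p z (x r) fun i hi => ?_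
      by_cases hie : i = e
      · subst hie
        simp [z, hxe]
      · have : i = 0 ∨ i = 1 := by
          by_contra hcon
          push Not at hcon
          exact hi ⟨hcon.1, hcon.2, hie⟩
        rcases this with rfl | rfl
        · simp [z, hie, hx0]
        · simp [z, hie, hx1]
    rw [h1, gp_eq x hx.one]
    exact hx.eq u
  obtain ⟨Δ, hΔ, hall⟩ := charts (fun (e : {e : Fin (N r + 1) // e ≠ 0 ∧ e ≠ 1}) K _ _ c =>
    ∀ (Ω : Type) [Field Ω] [Algebra K Ω] (x : Pt N Ω),
      GenPt K c r x → x r 0 = 0 → x r 1 = 0 → x r e.1 ≠ 1) step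
  refine ⟨Δ, hΔ, fun K _ _ c hc Ω _ _ x hx hx01 => ?_⟩
  obtain ⟨i, hi⟩ := hx.norm
  have h0 : i ≠ 0 := by
    rintro rfl
    rw [hx01.1] at hi
    exact zero_ne_one hi
  have h1 : i ≠ 1 := by
    rintro rfl
    rw [hx01.2] at hi
    exact zero_ne_one hi
  exact hall K c hc ⟨i, h0, h1⟩ Ω x hx hx01.1 hx01.2 hi

/-- One chart for `nice1`. -/
theorem nice1_aux (h : Tc N d) (r : Fin k) (hr : N r = l + 1) (j : Fin k) (hj : N j = l + 1)
    (e : Fin (N r + 1)) (i0 : Fin l) (e0 : Fin (N j + 1))
    (he0 : ∀ (S : Type) [CommRing S] (w : {q : Vr N // q.1 ≠ r} → S)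
      (v : {i : Fin (N r + 1) // i ≠ e} → S), gpe r e w v j e0 = 1) :
    ∃ Δ : MvPolynomial (Tx N d) ℚ, Δ ≠ 0 ∧ ∀ (K : Type) [Field K] [CharZero K] (c : Tx N d → K),
      aeval c Δ ≠ 0 → ∀ (Ω : Type) [Field Ω] [Algebra K Ω] (x : Pt N Ω), GenPt K c r x →
        x r e = 1 → ∀ lam : Fin l → Ω, lam i0 = 1 →
          ¬ ∀ b, ∑ i, lam i * dF (fun e => algebraMap K Ω (c e)) x j b i = 0 := by
  classical
  have hl := tc_pos h r
  obtain ⟨Δ, hΔ, hall⟩ := engine (d := d) r
    (ν := {i : Fin (N r + 1) // i ≠ e} ⊕ {i : Fin l // i ≠ i0})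
    (U := Fin l ⊕ {b : Fin (N j + 1) // b ≠ e0})
    (fun S _ w v u => Sum.elim
      (fun i => row (Pi.single i 1) (fun _ => fc (gpe r e w fun q => v (Sum.inl q))))
      (fun b => row (ins (fun i => i ≠ i0) (fun _ => 1) fun q => v (Sum.inr q))
        (fun _ => dc (gpe r e w fun q => v (Sum.inl q)) j (Pi.single b.1 1))) u)
    (by
      intro S S' _ _ f w v u m
      have h1 := gpe_map r e f w fun q => v (Sum.inl q)
      rcases u with i | b
      · simp only [Sum.elim_inl, row]
        rw [map_mul, fc_map, h1]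
        congr 1
        exact congrFun (single_map f i) _
      · simp only [Sum.elim_inr, row]
        rw [map_mul, dc_map, h1, ins_map, single_map])
    (by
      intro Ω _ L w v hw hv u m
      have h1 := gpe_mem L r e w (fun q => v (Sum.inl q)) hw fun q => hv _
      rcases u with i | b
      · exact row_mem L _ (single_mem L i) _ (fun i m => fc_mem L _ h1 m) m
      · exact row_mem L _ (ins_mem _ _ L _ fun q => hv _) _
          (fun i m => dc_mem L _ h1 j _ (single_mem L _) m) m)
    (by
      intro Ω _ w v t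
      set y := gpe r e w fun q => v (Sum.inl q) with hy
      have hx : ∀ j, y j ≠ 0 := gpe_ne_zero r e w _
      have hy0 : y j e0 = 1 := he0 Ω w _
      choose a ha hb using fun i : Fin l => Pool.Agent.Helper94.M.exists_tensor (e := d i) (fun j => h.pos i j)
        y hx j e0 (by rw [hy0]; exact one_ne_zero) (t (Sum.inl i))
        (fun q => if hq : i = i0 ∧ q ≠ e0 then t (Sum.inr ⟨q, hq.2⟩) else 0)
      refine ⟨fun m => a m.1 m.2, fun u => ?_⟩
      rcases u with i | b
      · simp only [Sum.elim_inl]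
        rw [row_Fm]
        exact ha i
      · simp only [Sum.elim_inr]
        rw [row_dF]
        have h2 : ∀ i, dF (fun m : Tx N d => a m.1 m.2) y j (Pi.single b.1 1) i =
            if i = i0 then t (Sum.inr b) else 0 := by
          intro i
          have h3 := hb i (Pi.single b.1 1) (Pi.single_eq_of_ne (Ne.symm b.2) 1)
          refine h3.trans ?_
          rw [Finset.sum_eq_single b.1]
          · rw [Pi.single_eq_same, mul_one]
            by_cases hi : i = i0
            · rw [dif_pos ⟨hi, b.2⟩, if_pos hi]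
            · rw [dif_neg fun hh => hi hh.1, if_neg hi]
          · intro q _ hq
            rw [Pi.single_eq_of_ne hq, mul_zero]
          · intro hh
            exact absurd (Finset.mem_univ _) hh
        simp only [h2]
        rw [Finset.sum_eq_single i0]
        · rw [if_pos rfl, ins_neg _ _ _ _ (by simp)]
          simp
        · intro i _ hi
          rw [if_neg hi, mul_zero]
        · intro hh
          exact absurd (Finset.mem_univ _) hh)
    (by
      rw [Fintype.card_sum, Fintype.card_sum, Fintype.card_fin]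
      have h1 : ∀ (n : ℕ) (q : Fin n), Fintype.card {i : Fin n // i ≠ q} + 1 = n := by
        intro n q
        have h2 := Fintype.card_subtype_compl (fun i : Fin n => i = q)
        rw [Fintype.card_subtype_eq, Fintype.card_fin] at h2
        have h3 : 0 < n := q.pos
        have h4 : Fintype.card {i : Fin n // i ≠ q} = n - 1 := h2
        omega
      have h2 := h1 _ e
      have h3 := h1 _ i0
      have h4 := h1 _ e0
      omega)
  refine ⟨Δ, hΔ, fun K _ _ c hc Ω _ _ x hx hxe lam hlam hb => ?_⟩
  have hxx := gpe_eq r e x hx.one hxe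
  have hlam' : ins (fun i => i ≠ i0) (fun _ => 1) (fun q => lam q.1) = lam :=
    ins_eq _ _ lam fun i hi => by
      have : i = i0 := not_not.1 hi
      subst this
      simp [hlam]
  refine hall K c hc Ω _ (Sum.elim (fun i => x r i.1) fun i => lam i.1) hx.ind fun u => ?_
  rcases u with i | b
  · simp only [Sum.elim_inl]
    rw [row_Fm (fun m => algebraMap K Ω (c m)), hxx]
    exact hx.eq i
  · simp only [Sum.elim_inr, Sum.elim_inl]
    rw [row_dF (fun m => algebraMap K Ω (c m)), hxx, hlam']
    exact hb _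

theorem nice1 (h : Tc N d) (r : Fin k) (hr : N r = l + 1) (j : Fin k) (hj : N j = l + 1) :
    ∃ Δ : MvPolynomial (Tx N d) ℚ, Δ ≠ 0 ∧ ∀ (K : Type) [Field K] [CharZero K] (c : Tx N d → K),
      aeval c Δ ≠ 0 → ∀ (Ω : Type) [Field Ω] [Algebra K Ω] (x : Pt N Ω), GenPt K c r x →
        ∀ lam : Fin l → Ω,
          (∀ b, ∑ i, lam i * dF (fun e => algebraMap K Ω (c e)) x j b i = 0) → lam = 0 := by
  classical
  have step : ∀ q : Fin (N r + 1) × Fin l,
      ∃ Δ : MvPolynomial (Tx N d) ℚ, Δ ≠ 0 ∧ ∀ (K : Type) [Field K] [CharZero K]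
        (c : Tx N d → K), aeval c Δ ≠ 0 → ∀ (Ω : Type) [Field Ω] [Algebra K Ω] (x : Pt N Ω),
          GenPt K c r x → x r q.1 = 1 → ∀ lam : Fin l → Ω, lam q.2 = 1 →
          ¬ ∀ b, ∑ i, lam i * dF (fun e => algebraMap K Ω (c e)) x j b i = 0 := by
    rintro ⟨e, i0⟩
    by_cases hjr : j = r
    · subst hjr
      exact nice1_aux h j hr j hj e i0 e fun S _ w v => gpe_self j e w v
    · exact nice1_aux h r hr j hj e i0 0 fun S _ w v => gpe_zero r e w v j hjr
  obtain ⟨Δ, hΔ, hall⟩ := charts (fun (q : Fin (N r + 1) × Fin l) K _ _ c =>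
    ∀ (Ω : Type) [Field Ω] [Algebra K Ω] (x : Pt N Ω),
      GenPt K c r x → x r q.1 = 1 → ∀ lam : Fin l → Ω, lam q.2 = 1 →
      ¬ ∀ b, ∑ i, lam i * dF (fun e => algebraMap K Ω (c e)) x j b i = 0) step
  refine ⟨Δ, hΔ, fun K _ _ c hc Ω _ _ x hx lam hb => ?_⟩
  by_contra hlam
  obtain ⟨i0, hi0⟩ := Function.ne_iff.1 hlam
  rw [Pi.zero_apply] at hi0
  obtain ⟨e, he⟩ := hx.norm
  refine hall K c hc ⟨e, i0⟩ Ω x hx he (fun i => (lam i0)⁻¹ * lam i) (inv_mul_cancel₀ hi0)
    fun b => ?_
  have h1 : ∑ i, (lam i0)⁻¹ * lam i * dF (fun e => algebraMap K Ω (c e)) x j b i =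
      (lam i0)⁻¹ * ∑ i, lam i * dF (fun e => algebraMap K Ω (c e)) x j b i := by
    rw [Finset.mul_sum]
    exact Finset.sum_congr rfl fun i _ => mul_assoc _ _ _
  rw [h1, hb b, mul_zero]

end Pool.Agent.Helper60.P
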